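import Pool.Agent.H26Z.MfExist
import Pool.Agent.H26Z.MfKron

/-! An odd Hecke-Maass cusp form of level one exists, and all its quadratic twists vanish at the
centre, so the proportion of non-vanishing twists is `0` and does not tend to `1 / 2`. -/

set_option autoImplicit false

namespace Pool.Agent.Results.MP_17f4cb_nt.AOddMaassTwistsVanish

open Pool.Agent.H26Z.Mf Filter Topology

theorem result :
    (∃ (U : ℂ → ℂ) (ev : ℂ) (lam : ℕ → ℂ), IsHeckeMaass U ev lam ∧ IsOddForm U) ∧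
    ∀ (U : ℂ → ℂ) (ev : ℂ) (lam : ℕ → ℂ), IsHeckeMaass U ev lam → IsOddForm U →
      (∀ D : ℤ, IsFundDisc D →
        ∃ L : ℂ → ℂ, IsTwistL lam (fun p => (kron D p : ℂ)) L ∧ L (1 / 2) = 0) ∧
      (∀ x : ℝ, countNonvanishing lam x = 0) ∧
      ¬Tendsto (fun x : ℝ => (countNonvanishing lam x : ℝ) / (countAll x : ℝ)) atTop
        (𝓝 (1 / 2)) := by
  refine ⟨exists_odd_form, fun U ev lam h ho => ?_⟩
  have h1 : ∀ D : ℤ, IsFundDisc D →
      ∃ L : ℂ → ℂ, IsTwistL lam (fun p => (kron D p : ℂ)) L ∧ L (1 / 2) = 0 := by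
    intro D hD
    obtain ⟨q, _, χ, hχ, hχ2, e⟩ := hD.exists_char
    obtain ⟨L, hL, h0⟩ := twist_vanishes h ho hχ hχ2
    exact ⟨L, hL.congr e, h0⟩
  have h2 : ∀ x : ℝ, countNonvanishing lam x = 0 := by
    intro x
    refine (congrArg Set.ncard (Set.eq_empty_of_forall_notMem ?_)).trans (Set.ncard_empty ℤ)
    rintro D ⟨hD, -, L, hL, hne⟩
    obtain ⟨L', hL', h0⟩ := h1 D hD
    exact hne (hL.unique hL' ▸ h0)
  refine ⟨h1, h2, fun ht => ?_⟩
  simp only [h2, Nat.cast_zero, zero_div] at ht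
  have := tendsto_nhds_unique ht tendsto_const_nhds
  norm_num at this

end Pool.Agent.Results.MP_17f4cb_nt.AOddMaassTwistsVanish
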